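import Pool.Agent.U280.LT.Ang

/-!
# Orthonormal functions in `ℝ³` with angular momenta in a set with disjoint translates

Write `ℝ³ = ℂ × ℝ`, and let the orthonormal functions `u_1, …, u_N` have all their angular momenta
about the axis `x = 0` in a set `Λ ⊆ ℤ`: `∫ u_n(e^{iθ} x, y) e^{-ilθ} dθ = 0` for `l ∉ Λ`. Every `u_n` may
be an arbitrary superposition of infinitely many angular momenta.

If `0 ∉ Λ` and `Λ` does not contain two consecutive integers then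
`(4/3)^(1/3) K_3^c ∫ ρ^(5/3) ≤ T`, with a constant larger than the semiclassical constant
`K_3^c = 3/5 (6π²)^(2/3)` of the conjecture. More generally, if `|l| ≥ κ > 0` for `l ∈ Λ` and the
translates `Λ + j`, `j ∈ J`, are pairwise disjoint then the constant is
`((3/4) (|J| / (1 + ∑_{j ∈ J} j² / (|J| κ²)))²)^(1/3) K_3^c`.

Proof in `Pool/Agent/U280/LT` (all dimensions `d = k + 2`): the functions `e^{ijφ} u_n`, `j ∈ J`, are
orthonormal and have the density `|J| ρ`; Wirtinger's inequality on circles; scaling in the plane; the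
inequality of the starting file `MP_cfe56d_mp/AllDimensions` as a black box.
-/

set_option autoImplicit false

open MeasureTheory Set

namespace Pool.Agent.Results.MP_3242df_mp.AngularMomenta

/-- The space `ℝ³ = ℂ × ℝ` with the Lebesgue measure. -/
abbrev Space : Type := ℂ × (Fin 1 → ℝ)

/-- `|∇u|²`: the sum of the squares of the absolute values of the three partial derivatives. -/
noncomputable def grad2 (u : Space → ℂ) (z : Space) : ℝ :=
  ‖fderiv ℝ u z (1, 0)‖ ^ 2 + ‖fderiv ℝ u z (Complex.I, 0)‖ ^ 2 +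
    ∑ j, ‖fderiv ℝ u z (0, Pi.single j 1)‖ ^ 2

/-- An orthonormal system of functions `u_n(x, y)` on `ℂ × ℝ` which are continuously
differentiable at the points with `x ≠ 0` and have finite kinetic energy. -/
structure System {N : ℕ} (u : Fin N → Space → ℂ) : Prop where
  smooth : ∀ n, ContDiffOn ℝ 1 (u n) {z | z.1 ≠ 0}
  square : ∀ n, Integrable (fun z => ‖u n z‖ ^ 2)
  energy : ∀ n, Integrable (grad2 (u n))
  orthonormal : ∀ n n', ∫ z, star (u n z) * u n' z = if n = n' then (1 : ℂ) else 0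

/-- All angular momenta of `u` about the axis are in `Λ`. -/
def Momenta (Λ : Set ℤ) (u : Space → ℂ) : Prop :=
  ∀ l : ℤ, l ∉ Λ → ∀ x y, x ≠ 0 →
    ∫ θ in (0 : ℝ)..(2 * Real.pi), u (Complex.exp (θ * Complex.I) * x, y) *
      Complex.exp (-(l * θ * Complex.I)) = 0

/-- The semiclassical value `K_3^c = 3/5 (6π²)^(2/3)`. -/
noncomputable def Kc : ℝ := 3 / 5 * (6 * Real.pi ^ 2) ^ (2 / 3 : ℝ)

/-- `ρ^(5/3)` is integrable and `C^(1/3) K_3^c ∫ ρ^(5/3) ≤ ∑ ∫ |∇u_n|²`, `ρ = ∑ |u_n|²`. -/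
def Kinetic {N : ℕ} (u : Fin N → Space → ℂ) (C : ℝ) : Prop :=
  Integrable (fun z => (∑ n, ‖u n z‖ ^ 2) ^ (5 / 3 : ℝ)) ∧
  C ^ (1 / 3 : ℝ) * Kc * ∫ z, (∑ n, ‖u n z‖ ^ 2) ^ (5 / 3 : ℝ) ≤ ∑ n, ∫ z, grad2 (u n) z

lemma om3 : (volume (Metric.ball (0 : EuclideanSpace ℝ (Fin 3)) 1)).toReal =
    4 * Real.pi / 3 := by
  rw [EuclideanSpace.volume_ball_fin_three]
  have hπ := Real.pi_pos
  simp only [ENNReal.ofReal_one, one_pow, one_mul]
  rw [ENNReal.toReal_ofReal (by positivity)]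
  ring

lemma Kcl3 : Pool.Agent.U280.LT.Ang.Kcl 3 = Kc := by
  unfold Pool.Agent.U280.LT.Ang.Kcl Kc
  have hπ := Real.pi_pos
  rw [om3]
  push_cast
  have h1 : (2 * Real.pi) ^ 2 = (8 * Real.pi ^ 3) ^ (2 / 3 : ℝ) := by
    rw [show 8 * Real.pi ^ 3 = (2 * Real.pi) ^ (3 : ℕ) by ring,
      ← Real.rpow_natCast (2 * Real.pi) 3,
      ← Real.rpow_mul (by positivity), ← Real.rpow_natCast (2 * Real.pi) 2]
    congr 1
    push_cast
    norm_num
  have h2 : (2 * Real.pi) ^ 2 / (4 * Real.pi / 3) ^ (2 / 3 : ℝ) =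
      (6 * Real.pi ^ 2) ^ (2 / 3 : ℝ) := by
    rw [h1, ← Real.div_rpow (by positivity) (by positivity)]
    congr 1
    field_simp
    ring
  rw [h2]
  norm_num

/-- **The kinetic energy inequality in `ℝ³` for sets of angular momenta with disjoint
translates.** -/
theorem result (N : ℕ) (u : Fin N → Space → ℂ) (hu : System u) :
    (∀ (Λ : Set ℤ) (κ : ℝ) (J : Finset ℤ), 0 < κ → (∀ l ∈ Λ, κ ≤ |(l : ℝ)|) → J.Nonempty →
      (∀ i ∈ J, ∀ j ∈ J, i ≠ j → ∀ l ∈ Λ, l + i - j ∉ Λ) → (∀ n, Momenta Λ (u n)) →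
      Kinetic u (3 / 4 * ((J.card : ℝ) /
        (1 + (∑ j ∈ J, (j : ℝ) ^ 2) / (J.card * κ ^ 2))) ^ 2)) ∧
    (∀ Λ : Set ℤ, (0 : ℤ) ∉ Λ → (∀ l ∈ Λ, l + 1 ∉ Λ) → (∀ n, Momenta Λ (u n)) →
      Kinetic u (4 / 3)) := by
  obtain ⟨m1, m2, -⟩ := Pool.Agent.U280.LT.Ang.main 1 N u
    ⟨hu.smooth, hu.square, hu.energy, hu.orthonormal⟩
  have e53 : (1 + 2 / (((1 + 2 : ℕ)) : ℝ)) = 5 / 3 := by norm_num
  have e13 : (1 / (((1 + 2 : ℕ)) : ℝ)) = 1 / 3 := by norm_num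
  have conv : ∀ C : ℝ, Pool.Agent.U280.LT.Ang.Kinetic u C → Kinetic u C := by
    intro C h
    have h1 := h.1
    have h2 := h.2
    rw [e53] at h1
    rw [e53, e13] at h2
    have e : Pool.Agent.U280.LT.Ang.Kcl (1 + 2) = Kc := Kcl3
    rw [e] at h2
    exact ⟨h1, h2⟩
  exact ⟨fun Λ κ J h1 h2 h3 h4 h5 => conv _ (m1 Λ κ J h1 h2 h3 h4 h5),
    fun Λ h1 h2 h3 => conv _ (m2 Λ h1 h2 h3)⟩

end Pool.Agent.Results.MP_3242df_mp.AngularMomenta
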