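import Pool.Agent.U280.SM.B
import Pool.Agent.U280.SM.V
import Pool.Agent.U280.SM.Bal

/-!
# Orthonormal functions in `ℝ³` with a symmetry

Let `φ_1, …, φ_N ∈ H¹(ℝ³)` be orthonormal, `ρ = ∑ |φ_i|²`, `T = ∑ ∫ |∇φ_i|²` and
`K_3^c = 3/5 (6π²)^(2/3)`. The conjectured inequality holds, with a larger constant,

  `T ≥ (7/5)^(1/3) K_3^c ∫ ρ^(5/3)`,

if `φ_i ∘ γ = ζ φ_i` for all `i` with a measure preserving map `γ` of `ℝ³` and a number `ζ ≠ 1` of
absolute value one, for instance for all systems of odd functions; and more generally if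
`∫ |w| w = 0` for all linear combinations `w` of the `φ_i`. In operator form: the negative min-max
values of `-Δ - V` on such a sector satisfy `∑ |e_i| ≤ (7/5)^(-1/2) L^c_{1,3} ∫ V_+^(5/2)`,
`L^c_{1,3} = 1 / (15 π²)`, for all real `V ∈ L^(5/2)`.

The proof is that of `MP_cfe56d_mp.BalancedSystems` (copy in `Pool/Agent/U280/SM/Bal.lean`).
-/

open MeasureTheory Set Real

set_option autoImplicit false

namespace Pool.Agent.Results.MP_3242df_mp.SymmetricSystems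

/-- The space `ℝ³` with the Lebesgue measure. -/
abbrev Space : Type := Fin 3 → ℝ

/-- `u` belongs to the Sobolev space `H¹(ℝ³; ℂ)` and has the weak partial derivatives `g k`:
`u` and all `g k` are in `L²(ℝ³)`, and `∫ u ∂_k φ = - ∫ g_k φ` for every real test function
`φ ∈ C_c^∞(ℝ³)`. -/
structure IsSobolev (u : Space → ℂ) (g : Fin 3 → Space → ℂ) : Prop where
  memLp : MemLp u 2 volume
  memLp_deriv : ∀ k, MemLp (g k) 2 volume
  weak : ∀ k (φ : Space → ℝ), ContDiff ℝ (⊤ : ℕ∞) φ → HasCompactSupport φ →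
    ∫ x, u x * (fderiv ℝ φ x (Pi.single k 1) : ℂ) = - ∫ x, g k x * (φ x : ℂ)

/-- An `L²`-orthonormal system `u_1, …, u_N ∈ H¹(ℝ³; ℂ)` with the weak gradients `g_n`. -/
structure System {N : ℕ} (u : Fin N → Space → ℂ) (g : Fin N → Fin 3 → Space → ℂ) : Prop where
  sobolev : ∀ n, IsSobolev (u n) (g n)
  orthonormal : ∀ n m, ∫ x, (starRingEnd ℂ) (u n x) * u m x = if n = m then 1 else 0

/-- `ρ^(5/3)` is integrable and `K ∫ ρ^(5/3) ≤ T`. -/
def Kinetic {N : ℕ} (K : ℝ) (u : Fin N → Space → ℂ) (g : Fin N → Fin 3 → Space → ℂ) : Prop :=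
  Integrable (fun x => (∑ n, ‖u n x‖ ^ 2) ^ (5 / 3 : ℝ)) ∧
  K * ∫ x, (∑ n, ‖u n x‖ ^ 2) ^ (5 / 3 : ℝ) ≤ ∑ n, ∑ j, ∫ x, ‖g n j x‖ ^ 2

/-- The semiclassical value `K_3^c = 3/5 (6π²)^(2/3)`. -/
noncomputable def Kc : ℝ := 3 / 5 * (6 * π ^ 2) ^ (2 / 3 : ℝ)

/-- `u` lies in the sector of `(γ, ζ)`: `u ∘ γ = ζ u` almost everywhere. -/
def InSector (γ : Space → Space) (ζ : ℂ) (u : Space → ℂ) : Prop := ∀ᵐ x, u (γ x) = ζ * u x

/-- The `(n + 1)`-th min-max value of `-Δ - V` on the sector of `(γ, ζ)`: the infimum of the real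
numbers `lam` such that for some orthonormal functions `u 0, …, u n ∈ H¹` of the sector
`∫ |∇v|² - ∫ V |v|² ≤ lam ∑ |c_i|²` for all `v = ∑ c_i u_i`. (It is `0` if there are none.) -/
noncomputable def minMax (γ : Space → Space) (ζ : ℂ) (V : Space → ℝ) (n : ℕ) : ℝ :=
  sInf {lam : ℝ | ∃ (u : Fin (n + 1) → Space → ℂ) (g : Fin (n + 1) → Fin 3 → Space → ℂ),
    System u g ∧ (∀ i, InSector γ ζ (u i)) ∧
    ∀ c : Fin (n + 1) → ℂ, (∫ x, ∑ k, ‖∑ i, c i * g i k x‖ ^ 2) -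
      ∫ x, V x * ‖∑ i, c i * u i x‖ ^ 2 ≤ lam * ∑ i, ‖c i‖ ^ 2}

lemma om3 : (volume (Metric.ball (0 : EuclideanSpace ℝ (Fin 3)) 1)).toReal = 4 * π / 3 := by
  rw [EuclideanSpace.volume_ball_fin_three]
  have hπ := Real.pi_pos
  simp only [ENNReal.ofReal_one, one_pow, one_mul]
  rw [ENNReal.toReal_ofReal (by positivity)]
  ring

lemma Kcl3 : Pool.Agent.U280.SM.Bal.Kcl 3 = Kc := by
  unfold Pool.Agent.U280.SM.Bal.Kcl Kc
  have hπ := Real.pi_pos
  rw [om3]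
  push_cast
  have h1 : (2 * π) ^ 2 = (8 * π ^ 3) ^ (2 / 3 : ℝ) := by
    rw [show 8 * π ^ 3 = (2 * π) ^ (3 : ℕ) by ring, ← Real.rpow_natCast (2 * π) 3,
      ← Real.rpow_mul (by positivity), ← Real.rpow_natCast (2 * π) 2]
    congr 1
    push_cast
    norm_num
  have h2 : (2 * π) ^ 2 / (4 * π / 3) ^ (2 / 3 : ℝ) = (6 * π ^ 2) ^ (2 / 3 : ℝ) := by
    rw [h1, ← Real.div_rpow (by positivity) (by positivity)]
    congr 1
    field_simp
    ring
  rw [h2]
  norm_num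

lemma Lcl3 : Pool.H632.LTD.Lcl 1 3 = 1 / (15 * π ^ 2) := by
  rw [← Pool.Agent.U280.SM.lcl_one (by norm_num : 1 ≤ 3), om3]
  have hπ := Real.pi_pos
  push_cast
  field_simp
  ring

/-- **The kinetic energy inequality in `ℝ³` for systems with a symmetry.** -/
theorem result :
    -- systems with `∫ |w| w = 0` for all linear combinations
    (∀ (N : ℕ) (u : Fin N → Space → ℂ) (g : Fin N → Fin 3 → Space → ℂ), System u g →
      (∀ c : Fin N → ℂ, ∫ x, ((‖∑ n, c n * u n x‖ : ℝ) : ℂ) * ∑ n, c n * u n x = 0) →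
      Kinetic ((7 / 5) ^ (1 / 3 : ℝ) * Kc) u g) ∧
    -- systems with a symmetry
    (∀ (N : ℕ) (u : Fin N → Space → ℂ) (g : Fin N → Fin 3 → Space → ℂ) (γ : Space → Space) (ζ : ℂ),
      System u g → MeasurePreserving γ → ‖ζ‖ = 1 → ζ ≠ 1 → (∀ n, InSector γ ζ (u n)) →
      Kinetic ((7 / 5) ^ (1 / 3 : ℝ) * Kc) u g) ∧
    -- operator form
    (∀ (γ : Space → Space) (ζ : ℂ) (V : Space → ℝ) (N : ℕ), MeasurePreserving γ → ‖ζ‖ = 1 → ζ ≠ 1 →
      MemLp V (ENNReal.ofReal (5 / 2)) →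
      ∑ n ∈ Finset.range N, max (-minMax γ ζ V n) 0 ≤
        (7 / 5) ^ (-(1 / 2) : ℝ) * (1 / (15 * π ^ 2)) * ∫ x, (max (V x) 0) ^ (5 / 2 : ℝ)) := by
  obtain ⟨b1, b2, b3, b4, b5⟩ := Pool.Agent.U280.SM.Bal.main
  have hS : ∀ {u : Space → ℂ} {g : Fin 3 → Space → ℂ},
      IsSobolev u g ↔ LTd.WGradC u g := fun {u g} =>
    ⟨fun h => ⟨h.1, h.2, h.3⟩, fun h => ⟨h.1, h.2, h.3⟩⟩
  have hC : (7 / 5 : ℝ) ≤ Pool.Agent.U280.SM.Bal.C 3 := by
    have := b2.2.2.1
    linarith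
  have e53 : (1 + 2 / (((3 + 0 : ℕ)) : ℝ)) = 5 / 3 := by norm_num
  have e13 : (1 / (((3 + 0 : ℕ)) : ℝ)) = 1 / 3 := by norm_num
  have hbal : ∀ (N : ℕ) (u : Fin N → Space → ℂ) (g : Fin N → Fin 3 → Space → ℂ), System u g →
      Pool.Agent.U280.SM.Bal.Balanced 3 0 u → Kinetic ((7 / 5) ^ (1 / 3 : ℝ) * Kc) u g := by
    intro N u g hu hb
    have h1 := b1 3 0 N u g (by norm_num)
      ⟨fun n => ⟨(hu.sobolev n).1, (hu.sobolev n).2, (hu.sobolev n).3⟩, hu.orthonormal⟩ hb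
    have h2 : Integrable (fun x => (∑ n, ‖u n x‖ ^ 2) ^ (5 / 3 : ℝ)) := by
      have := h1.1
      rw [e53] at this
      exact this
    refine ⟨h2, le_trans ?_ h1.2⟩
    rw [e53, e13]
    have e : Pool.Agent.U280.SM.Bal.Kcl (3 + 0) = Kc := Kcl3
    rw [e]
    refine mul_le_mul_of_nonneg_right ?_ ?_
    · refine mul_le_mul_of_nonneg_right (Real.rpow_le_rpow (by norm_num) hC (by norm_num)) ?_
      unfold Kc
      positivity
    · exact integral_nonneg fun x => Real.rpow_nonneg (Finset.sum_nonneg fun i _ => sq_nonneg _) _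
  have hsym : ∀ (N : ℕ) (u : Fin N → Space → ℂ) (g : Fin N → Fin 3 → Space → ℂ)
      (γ : Space → Space) (ζ : ℂ),
      System u g → MeasurePreserving γ → ‖ζ‖ = 1 → ζ ≠ 1 → (∀ n, InSector γ ζ (u n)) →
      Kinetic ((7 / 5) ^ (1 / 3 : ℝ) * Kc) u g := by
    intro N u g γ ζ hu hγ hζ hζ1 h
    exact hbal N u g hu (b3 3 0 N u γ ζ (fun n => (hu.sobolev n).1)
      ⟨hγ, fun z j => j.elim0, hζ, hζ1, h⟩)
  refine ⟨fun N u g hu h => hbal N u g hu fun c B hB => ?_, hsym, ?_⟩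
  · rcases B.eq_empty_or_nonempty with rfl | ⟨b, hb⟩
    · simp
    · have e : {z : Fin (3 + 0) → ℝ | (fun j => z (Fin.natAdd 3 j)) ∈ B} = univ := by
        refine eq_univ_of_forall fun z => ?_
        have : (fun j => z (Fin.natAdd 3 j)) = b := Subsingleton.elim _ _
        show (fun j => z (Fin.natAdd 3 j)) ∈ B
        rw [this]
        exact hb
      rw [e, setIntegral_univ]
      exact h c
  · intro γ ζ V N hγ hζ hζ1 hV
    have hM : ∀ n, minMax γ ζ V n =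
        Pool.Agent.U280.SM.mmP (InSector γ ζ) (fun x => -V x) n := by
      intro n
      rw [← Pool.Agent.U280.SM.mmF_eq (InSector γ ζ)
        (fun u v huv hu => Pool.Agent.U280.SM.sector_congr hγ ζ u v huv hu)
        (fun N u c hu => Pool.Agent.U280.SM.sector_sum ζ N u c hu) _ n]
      unfold minMax Pool.Agent.U280.SM.mmF
      congr 1
      ext lam
      constructor
      · rintro ⟨u, g, hu, hs, hc⟩
        refine ⟨u, g, fun i => hS.1 (hu.sobolev i), hu.orthonormal, hs, fun c => ?_⟩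
        have := hc c
        simp only [neg_mul, integral_neg]
        linarith
      · rintro ⟨u, g, hu, ho, hs, hc⟩
        refine ⟨u, g, ⟨fun i => hS.2 (hu i), ho⟩, hs, fun c => ?_⟩
        have := hc c
        simp only [neg_mul, integral_neg] at this
        linarith
    simp only [hM]
    have hkin : Pool.Agent.U280.SM.KinP (InSector γ ζ)
        ((7 / 5) ^ (1 / ((3 : ℕ) : ℝ)) * LTd.Kcl 3) := by
      intro N u g hu ho hP
      have h1 := hsym N u g γ ζ ⟨fun n => hS.2 (hu n), ho⟩ hγ hζ hζ1 hP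
      have e5 : (1 + 2 / ((3 : ℕ) : ℝ)) = 5 / 3 := by norm_num
      have e1 : (1 / ((3 : ℕ) : ℝ)) = 1 / 3 := by norm_num
      have eK : LTd.Kcl 3 = Kc := Kcl3
      rw [e5, e1, eK]
      exact h1
    have hexp : (1 : ℝ) + ((3 : ℕ) : ℝ) / 2 = 5 / 2 := by norm_num
    have hV' : MemLp (fun x => -V x) (ENNReal.ofReal (1 + ((3 : ℕ) : ℝ) / 2)) := by
      rw [hexp]
      exact hV.neg
    have h2 := Pool.Agent.U280.SM.mmP_moment (by norm_num : 1 ≤ 3) (InSector γ ζ)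
      (by norm_num : (0 : ℝ) < 7 / 5) hkin le_rfl _ hV' N
    rw [Lcl3, hexp] at h2
    simp only [Real.rpow_one, neg_neg] at h2
    exact h2

end Pool.Agent.Results.MP_3242df_mp.SymmetricSystems
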